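import Pool.Agent.Rabbit.Rigid
import Pool.Agent.Rabbit.Rotations

/-!
# `Homeo(R₄)` does not embed in `Homeo(R₃)`

There are a 3-regular rabbit `R₃` and a 4-regular rabbit `R₄` such that no group homomorphism
from the homeomorphism group of `R₄` to that of `R₃` is injective. (The `n`-regular rabbit is
unique up to homeomorphism, so these are the rabbits of the question.) The reason: `(ℤ/3)²`
acts faithfully on `R₄`, rotating three of the four branches at two cut points, but any two
commuting homeomorphisms of order three of `R₃` satisfy a nontrivial relation `f ^ i * g ^ j = 1`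
with `i, j < 3`.
-/

namespace Pool.Agent.Results.MP_1730fe_al.NoEmbedding

open Pool.Agent.Rabbit

theorem result :
    ∃ (R₃ R₄ : Type) (_ : TopologicalSpace R₃) (_ : TopologicalSpace R₄),
      IsRegularRabbit 3 R₃ ∧ IsRegularRabbit 4 R₄ ∧
        ¬ ∃ φ : (R₄ ≃ₜ R₄) →* (R₃ ≃ₜ R₃), Function.Injective φ := by
  refine ⟨Rab 2, Rab 3, inferInstance, inferInstance, isRegularRabbit_rab (by norm_num),
    isRegularRabbit_rab (by norm_num), ?_⟩
  rintro ⟨φ, hφ⟩
  obtain ⟨s, s', hss⟩ := exists_two_pos
  obtain ⟨i, j, hi, hj, hij, hw⟩ := exists_trivial_word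
    (f := φ (rotHomeo s)) (g := φ (rotHomeo s'))
    (by rw [← map_pow, rotHomeo_three, map_one])
    (by rw [← map_pow, rotHomeo_three, map_one])
    (by rw [← map_mul, rotHomeo_comm, map_mul])
  rw [← map_pow, ← map_pow, ← map_mul] at hw
  have hw' : rotHomeo s ^ i * rotHomeo s' ^ j = 1 := hφ (by rw [hw, map_one])
  obtain ⟨hi0, hj0⟩ := rotHomeo_word hss hi hj hw'
  rcases hij with h | h
  · exact h hi0
  · exact h hj0

end Pool.Agent.Results.MP_1730fe_al.NoEmbedding
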